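import Pool.Agent.Y382.Poly.Comp

/-!
# Translation classes
-/

namespace Pool.Agent.Y382.Poly

open Finset

/-- the set of fixed `n`-ominoes (translation classes) -/
def classes (n : ℕ) : Set (Set (Finset (ℤ × ℤ))) :=
  {C | ∃ S : Finset (ℤ × ℤ), S.card = n ∧
    ((SimpleGraph.fromRel (fun p q : ℤ × ℤ => |p.1 - q.1| + |p.2 - q.2| = 1)).induce
      (S : Set (ℤ × ℤ))).Connected ∧
    C = {T | ∃ v : ℤ × ℤ, T = S.image (fun p => p + v)}}

/-- translates of `S` -/
def orbit (S : Finset (ℤ × ℤ)) : Set (Finset (ℤ × ℤ)) := {T | ∃ v : ℤ × ℤ, T = shift v S}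

theorem orbit_shift (S : Finset (ℤ × ℤ)) (w : ℤ × ℤ) : orbit (shift w S) = orbit S := by
  ext T
  constructor
  · rintro ⟨v, rfl⟩
    exact ⟨w + v, shift_shift _ _ _⟩
  · rintro ⟨v, rfl⟩
    refine ⟨v - w, ?_⟩
    rw [shift_shift]
    congr 1
    abel

theorem classes_eq (n : ℕ) : classes n = orbit '' (Ts n : Set (Finset (ℤ × ℤ))) := by
  ext C
  constructor
  · rintro ⟨S, h1, h2, rfl⟩
    rw [conn_iff] at h2
    obtain ⟨m, hm, hmin⟩ := exists_lexmin h2.1
    refine ⟨shift (-m) S, ?_, orbit_shift S (-m)⟩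
    rw [mem_coe, mem_Ts]
    refine ⟨⟨by rw [shift_card, h1], zero_mem_shift hm, h2.shift _⟩, ?_⟩
    intro p hp
    rw [mem_shift, sub_neg_eq_add] at hp
    have := hmin _ hp
    simp only [Prod.fst_add, Prod.snd_add] at this
    omega
  · rintro ⟨S, hS, rfl⟩
    rw [mem_coe, mem_Ts] at hS
    exact ⟨S, hS.1.1, (conn_iff S).mpr hS.1.2.2, rfl⟩

theorem orbit_injOn (n : ℕ) : Set.InjOn orbit (Ts n : Set (Finset (ℤ × ℤ))) := by
  intro S hS T hT h
  rw [mem_coe, mem_Ts] at hS hT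
  have hT' : T ∈ orbit S := by
    rw [h]
    exact ⟨0, (shift_zero T).symm⟩
  obtain ⟨v, rfl⟩ := hT'
  have h1 : v ∈ shift v S := by
    rw [mem_shift, sub_self]
    exact hS.1.2.1
  have h2 : (0 : ℤ × ℤ) - v ∈ S := by
    have := hT.1.2.1
    rw [mem_shift] at this
    exact this
  have h3 := hT.2 v h1
  have h4 := hS.2 _ h2
  simp only [Prod.fst_sub, Prod.snd_sub, Prod.fst_zero, Prod.snd_zero] at h4
  have hv : v = 0 := by
    ext
    · show v.1 = 0
      omega
    · show v.2 = 0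
      omega
  rw [hv, shift_zero]

theorem ncard_classes (n : ℕ) : (classes n).ncard = t n := by
  rw [classes_eq, (orbit_injOn n).ncard_image, Set.ncard_coe_finset, t]

end Pool.Agent.Y382.Poly
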