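import Pool.Agent.Y382.Poly.Growth

/-!
# The number of fixed polyominoes is a primitive recursive function
-/

namespace Pool.Agent.Y382.Poly

open Finset

/-- the `i`-th binary digit of `m` is one -/
def Bit (m i : ℕ) : Prop := m / 2 ^ i % 2 = 1

instance (m i : ℕ) : Decidable (Bit m i) := inferInstanceAs (Decidable (_ = _))

theorem bit_iff (m i : ℕ) : Bit m i ↔ m.testBit i = true := by
  rw [Nat.testBit_eq_decide_div_mod_eq, decide_eq_true_iff]
  rfl

/-- width of the box `[-n,n]` -/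
def wd (n : ℕ) : ℕ := 2 * n + 1

/-- number of cells of the box -/
def sz (n : ℕ) : ℕ := wd n * wd n

/-- cell with index `i` -/
def cellOf (n i : ℕ) : ℤ × ℤ := (((i / wd n : ℕ) : ℤ) - n, ((i % wd n : ℕ) : ℤ) - n)

/-- index of a cell -/
def idx (n : ℕ) (p : ℤ × ℤ) : ℕ := (p.1 + n).toNat * wd n + (p.2 + n).toNat

theorem wd_pos (n : ℕ) : 0 < wd n := by unfold wd; omega

theorem mem_box {n : ℕ} {p : ℤ × ℤ} :
    p ∈ box n ↔ (-(n : ℤ) ≤ p.1 ∧ p.1 ≤ n) ∧ (-(n : ℤ) ≤ p.2 ∧ p.2 ≤ n) := by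
  rw [box, mem_product, mem_Icc, mem_Icc]

theorem idx_lt {n : ℕ} {p : ℤ × ℤ} (hp : p ∈ box n) : idx n p < sz n := by
  rw [mem_box] at hp
  have h1 : (p.1 + n).toNat ≤ 2 * n := by omega
  have h2 : (p.2 + n).toNat < wd n := by unfold wd; omega
  unfold idx sz
  calc (p.1 + n).toNat * wd n + (p.2 + n).toNat < (p.1 + n).toNat * wd n + wd n := by omega
    _ = ((p.1 + n).toNat + 1) * wd n := by ring
    _ ≤ wd n * wd n := Nat.mul_le_mul_right _ (by unfold wd; omega)

theorem cellOf_idx {n : ℕ} {p : ℤ × ℤ} (hp : p ∈ box n) : cellOf n (idx n p) = p := by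
  rw [mem_box] at hp
  have h2 : (p.2 + n).toNat < wd n := by unfold wd; omega
  have e1 : idx n p / wd n = (p.1 + n).toNat := by
    unfold idx
    rw [mul_comm, Nat.mul_add_div (wd_pos n), Nat.div_eq_of_lt h2, add_zero]
  have e2 : idx n p % wd n = (p.2 + n).toNat := by
    unfold idx
    rw [mul_comm, Nat.mul_add_mod, Nat.mod_eq_of_lt h2]
  unfold cellOf
  rw [e1, e2]
  ext
  · simp only; omega
  · simp only; omega

theorem cellOf_mem {n i : ℕ} (hi : i < sz n) : cellOf n i ∈ box n := by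
  have h1 : i / wd n < wd n := Nat.div_lt_of_lt_mul hi
  have h2 : i % wd n < wd n := Nat.mod_lt _ (wd_pos n)
  rw [mem_box]
  unfold cellOf
  simp only
  generalize i / wd n = a at *
  generalize i % wd n = b at *
  unfold wd at h1 h2
  omega

theorem cellOf_inj {n i j : ℕ} (h : cellOf n i = cellOf n j) : i = j := by
  simp only [cellOf, Prod.mk.injEq] at h
  have h1 : i / wd n = j / wd n := by omega
  have h2 : i % wd n = j % wd n := by omega
  rw [← Nat.div_add_mod i (wd n), ← Nat.div_add_mod j (wd n), h1, h2]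

/-- adjacency of indices -/
def AdjN (n i j : ℕ) : Prop :=
  (i / wd n = j / wd n ∧ (i % wd n + 1 = j % wd n ∨ j % wd n + 1 = i % wd n)) ∨
    (i % wd n = j % wd n ∧ (i / wd n + 1 = j / wd n ∨ j / wd n + 1 = i / wd n))

theorem adjN_iff (n i j : ℕ) : adj (cellOf n i) (cellOf n j) ↔ AdjN n i j := by
  unfold adj cellOf AdjN
  simp only
  generalize i / wd n = a
  generalize j / wd n = b
  generalize i % wd n = c
  generalize j % wd n = d
  constructor
  · intro h
    rcases abs_cases ((a : ℤ) - n - (b - n)) with ⟨h1, _⟩ | ⟨h1, _⟩ <;>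
      rcases abs_cases ((c : ℤ) - n - (d - n)) with ⟨h2, _⟩ | ⟨h2, _⟩ <;> rw [h1, h2] at h <;> omega
  · intro h
    rcases abs_cases ((a : ℤ) - n - (b - n)) with ⟨h1, _⟩ | ⟨h1, _⟩ <;>
      rcases abs_cases ((c : ℤ) - n - (d - n)) with ⟨h2, _⟩ | ⟨h2, _⟩ <;> rw [h1, h2] <;> omega

theorem length_filter_range (N : ℕ) (P : ℕ → Prop) [DecidablePred P] :
    ((List.range N).filter (fun i => P i)).length = ((range N).filter P).card := by
  rw [← List.toFinset_card_of_nodup (List.nodup_range.filter _)]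
  congr 1
  ext i
  simp

/-- the set of cells coded by `m` -/
def dec (n m : ℕ) : Finset (ℤ × ℤ) := ((range (sz n)).filter (fun i => Bit m i)).image (cellOf n)

theorem mem_dec {n m : ℕ} {p : ℤ × ℤ} : p ∈ dec n m ↔ ∃ i < sz n, Bit m i ∧ cellOf n i = p := by
  simp only [dec, mem_image, mem_filter, mem_range]
  constructor
  · rintro ⟨i, ⟨h1, h2⟩, h3⟩; exact ⟨i, h1, h2, h3⟩
  · rintro ⟨i, h1, h2, h3⟩; exact ⟨i, ⟨h1, h2⟩, h3⟩

theorem cell_mem_dec {n m i : ℕ} (hi : i < sz n) : cellOf n i ∈ dec n m ↔ Bit m i := by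
  rw [mem_dec]
  constructor
  · rintro ⟨j, _, h2, h3⟩
    rwa [← cellOf_inj h3]
  · intro h; exact ⟨i, hi, h, rfl⟩

theorem card_dec (n m : ℕ) : (dec n m).card = ((range (sz n)).filter (fun i => Bit m i)).card :=
  card_image_of_injective _ (fun _ _ h => cellOf_inj h)

theorem dec_subset (n m : ℕ) : dec n m ⊆ box n := by
  intro p hp
  obtain ⟨i, hi, _, rfl⟩ := mem_dec.mp hp
  exact cellOf_mem hi

theorem exists_code (n : ℕ) (U : Finset (ℤ × ℤ)) (hU : U ⊆ box n) :
    ∃ m < 2 ^ sz n, dec n m = U := by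
  let s : Finset ℕ := U.image (idx n)
  refine ⟨∑ i ∈ s, 2 ^ i, ?_, ?_⟩
  · apply Nat.lt_pow_two_of_testBit
    intro i hi
    by_contra hne
    have h1 : (∑ i ∈ s, 2 ^ i).testBit i = true := by
      simpa using hne
    rw [← Nat.mem_bitIndices, ← List.mem_toFinset, toFinset_bitIndices_sum_two_pow] at h1
    obtain ⟨p, hp, rfl⟩ := mem_image.mp h1
    have := idx_lt (hU hp)
    omega
  · ext p
    rw [mem_dec]
    constructor
    · rintro ⟨i, _, h2, rfl⟩
      rw [bit_iff, ← Nat.mem_bitIndices, ← List.mem_toFinset, toFinset_bitIndices_sum_two_pow] at h2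
      obtain ⟨q, hq, rfl⟩ := mem_image.mp h2
      rwa [cellOf_idx (hU hq)]
    · intro hp
      refine ⟨idx n p, idx_lt (hU hp), ?_, cellOf_idx (hU hp)⟩
      rw [bit_iff, ← Nat.mem_bitIndices, ← List.mem_toFinset, toFinset_bitIndices_sum_two_pow]
      exact mem_image.mpr ⟨p, hp, rfl⟩

theorem dec_inj {n m m' : ℕ} (hm : m < 2 ^ sz n) (hm' : m' < 2 ^ sz n) (h : dec n m = dec n m') :
    m = m' := by
  apply Nat.eq_of_testBit_eq
  intro i
  by_cases hi : i < sz n
  · have h1 : Bit m i ↔ Bit m' i := by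
      rw [← cell_mem_dec hi, ← cell_mem_dec hi, h]
    rw [bit_iff, bit_iff] at h1
    cases h2 : m.testBit i <;> cases h3 : m'.testBit i <;> simp_all
  · push Not at hi
    have hp : 2 ^ sz n ≤ 2 ^ i := Nat.pow_le_pow_right (by norm_num) hi
    rw [Nat.testBit_lt_two_pow (hm.trans_le hp), Nat.testBit_lt_two_pow (hm'.trans_le hp)]

/-- The code `m` describes a normalised `n`-omino. -/
def Q (n m : ℕ) : Prop :=
  (((List.range (sz n)).filter (fun i => Bit m i)).length = n) ∧
  Bit m (n * wd n + n) ∧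
  (∀ i < sz n, ¬ Bit m i ∨ (n < i % wd n ∨ (i % wd n = n ∧ n ≤ i / wd n))) ∧
  (∀ s < 2 ^ sz n, ¬ (∃ i < sz n, Bit s i) ∨ (∃ i < sz n, Bit s i ∧ ¬ Bit m i) ∨
    ¬ (∃ i < sz n, Bit m i ∧ ¬ Bit s i) ∨
    ∃ i < sz n, ∃ j < sz n, (Bit s i ∧ Bit m j) ∧ ¬ Bit s j ∧ AdjN n i j)

theorem Q_iff (n m : ℕ) : Q n m ↔ dec n m ∈ Ts n := by
  have hcard : ((List.range (sz n)).filter (fun i => Bit m i)).length = (dec n m).card := by
    rw [card_dec]
    exact length_filter_range (sz n) (fun i => Bit m i)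
  have h0 : cellOf n (n * wd n + n) = (0, 0) := by
    have hn : n < wd n := by unfold wd; omega
    unfold cellOf
    rw [mul_comm, Nat.mul_add_div (wd_pos n), Nat.div_eq_of_lt hn, Nat.mul_add_mod,
      Nat.mod_eq_of_lt hn]
    simp
  have h0' : n * wd n + n < sz n := by
    unfold sz
    have : n < wd n := by unfold wd; omega
    nlinarith
  have hsub : ∀ s, dec n s ⊆ dec n m ↔ ¬ ∃ i < sz n, Bit s i ∧ ¬ Bit m i := by
    intro s
    constructor
    · rintro h ⟨i, hi, h1, h2⟩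
      exact h2 ((cell_mem_dec hi).mp (h ((cell_mem_dec hi).mpr h1)))
    · intro h p hp
      obtain ⟨i, hi, h1, rfl⟩ := mem_dec.mp hp
      rw [cell_mem_dec hi]
      by_contra hcon
      exact h ⟨i, hi, h1, hcon⟩
  rw [mem_Ts]
  unfold Q
  rw [hcard]
  constructor
  · rintro ⟨a1, a2, a3, a4⟩
    have hmem0 : ((0 : ℤ), (0 : ℤ)) ∈ dec n m := by
      rw [← h0, cell_mem_dec h0']; exact a2
    refine ⟨⟨a1, hmem0, ⟨_, hmem0⟩, ?_⟩, ?_⟩
    · intro U hU hne hne'
      obtain ⟨s, hs, rfl⟩ := exists_code n U (hU.trans (dec_subset n m))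
      rcases a4 s hs with h | h | h | h
      · exfalso
        obtain ⟨p, hp⟩ := hne
        obtain ⟨i, hi, h1, _⟩ := mem_dec.mp hp
        exact h ⟨i, hi, h1⟩
      · exact absurd h ((hsub s).mp hU)
      · exfalso
        apply hne'
        apply Subset.antisymm hU
        intro p hp
        obtain ⟨i, hi, h1, rfl⟩ := mem_dec.mp hp
        rw [cell_mem_dec hi]
        by_contra hcon
        exact h ⟨i, hi, h1, hcon⟩
      · obtain ⟨i, hi, j, hj, ⟨h1, h2⟩, h3, h4⟩ := h
        refine ⟨cellOf n i, (cell_mem_dec hi).mpr h1, cellOf n j, ?_, (adjN_iff n i j).mpr h4⟩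
        rw [mem_sdiff, cell_mem_dec hj, cell_mem_dec hj]
        exact ⟨h2, h3⟩
    · intro p hp
      obtain ⟨i, hi, h1, rfl⟩ := mem_dec.mp hp
      have := (a3 i hi).resolve_left (not_not.mpr h1)
      simp only [cellOf]
      omega
  · rintro ⟨⟨a1, a2, a3⟩, a4⟩
    refine ⟨a1, ?_, ?_, ?_⟩
    · rw [← cell_mem_dec h0', h0]; exact a2
    · intro i hi
      by_cases hb : Bit m i
      · right
        have := a4 _ ((cell_mem_dec hi).mpr hb)
        simp only [cellOf] at this
        omega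
      · left; exact hb
    · intro s hs
      by_cases b1 : ∃ i < sz n, Bit s i
      swap
      · left; exact b1
      by_cases b2 : ∃ i < sz n, Bit s i ∧ ¬ Bit m i
      · right; left; exact b2
      by_cases b3 : ∃ i < sz n, Bit m i ∧ ¬ Bit s i
      swap
      · right; right; left; exact b3
      right; right; right
      obtain ⟨i1, hi1, c1⟩ := b1
      obtain ⟨i3, hi3, c3, c3'⟩ := b3
      obtain ⟨p, hp, q, hq, hpq⟩ := a3.2 (dec n s) ((hsub s).mpr b2)
        ⟨_, (cell_mem_dec hi1).mpr c1⟩ (by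
          intro he
          apply c3'
          rw [← cell_mem_dec hi3, he, cell_mem_dec hi3]
          exact c3)
      obtain ⟨i, hi, h1, rfl⟩ := mem_dec.mp hp
      rw [mem_sdiff] at hq
      obtain ⟨j, hj, h2, rfl⟩ := mem_dec.mp hq.1
      refine ⟨i, hi, j, hj, ⟨h1, h2⟩, ?_, (adjN_iff n i j).mp hpq⟩
      intro h3
      exact hq.2 ((cell_mem_dec hj).mpr h3)

open Classical in
theorem t_eq_length (n : ℕ) : t n = ((List.range (2 ^ sz n)).filter (fun m => Q n m)).length := by
  have h1 : ((List.range (2 ^ sz n)).filter (fun m => Q n m)).length =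
      ((range (2 ^ sz n)).filter (fun m => Q n m)).card :=
    length_filter_range (2 ^ sz n) (fun m => Q n m)
  rw [h1, t]
  symm
  refine card_bij (fun m _ => dec n m) ?_ ?_ ?_
  · intro m hm
    exact (Q_iff n m).mp (mem_filter.mp hm).2
  · intro m hm m' hm' h
    exact dec_inj (mem_range.mp (mem_filter.mp hm).1) (mem_range.mp (mem_filter.mp hm').1) h
  · intro S hS
    have hS' := mem_Ts.mp hS
    have hbox : S ⊆ box n := hS'.1.1 ▸ subset_box hS'.1.2.2 hS'.1.2.1
    obtain ⟨m, hm, rfl⟩ := exists_code n S hbox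
    exact ⟨m, mem_filter.mpr ⟨mem_range.mpr hm, (Q_iff n m).mpr hS⟩, rfl⟩

/-! ### primitive recursiveness -/

theorem ex_lt {α : Type*} [Primcodable α] {f : α → ℕ} {R : α → ℕ → Prop} (hf : Primrec f)
    (hR : PrimrecRel R) : PrimrecPred (fun a => ∃ x < f a, R a x) := by
  have h1 : PrimrecRel (fun (x : ℕ) (a : α) => R a x) := hR.comp₂ Primrec₂.right Primrec₂.left
  exact (h1.exists_mem_list.comp (Primrec.list_range.comp hf) Primrec.id).of_eq (by simp)

theorem all_lt {α : Type*} [Primcodable α] {f : α → ℕ} {R : α → ℕ → Prop} (hf : Primrec f)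
    (hR : PrimrecRel R) : PrimrecPred (fun a => ∀ x < f a, R a x) := by
  have h1 : PrimrecRel (fun (x : ℕ) (a : α) => R a x) := hR.comp₂ Primrec₂.right Primrec₂.left
  exact (h1.forall_mem_list.comp (Primrec.list_range.comp hf) Primrec.id).of_eq (by simp)

theorem len_filter {α : Type*} [Primcodable α] {f : α → ℕ} {R : α → ℕ → Prop}
    [inst : ∀ a x, Decidable (R a x)] (hf : Primrec f)
    (hR : PrimrecRel R) : Primrec (fun a => ((List.range (f a)).filter (fun x => R a x)).length) := by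
  have h1 : PrimrecRel (fun (x : ℕ) (a : α) => R a x) := hR.comp₂ Primrec₂.right Primrec₂.left
  letI : DecidableRel (fun (x : ℕ) (a : α) => R a x) := fun x a => inst a x
  exact Primrec.list_length.comp (h1.listFilter.comp (Primrec.list_range.comp hf) Primrec.id)

theorem nat_pow : Primrec₂ ((· ^ ·) : ℕ → ℕ → ℕ) := Primrec₂.unpaired'.1 Nat.Primrec.pow

theorem prim_wd : Primrec wd := by
  have : Primrec (fun n : ℕ => 2 * n + 1) := Primrec.nat_double_succ
  exact this

theorem prim_sz : Primrec sz := Primrec.nat_mul.comp prim_wd prim_wd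

theorem prim_bit : PrimrecRel Bit :=
  Primrec.eq.comp₂ (Primrec.nat_mod.comp₂ (Primrec.nat_div.comp₂ Primrec₂.left
    (nat_pow.comp₂ (Primrec₂.const 2) Primrec₂.right)) (Primrec₂.const 2)) (Primrec₂.const 1)

end Pool.Agent.Y382.Poly
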