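import Pool.Agent.Y382.Poly.Code

/-!
# Klarner's constant is a computable real number
-/

namespace Pool.Agent.Y382.Poly

open Filter Topology

theorem prim_adj : PrimrecPred (fun x : ℕ × ℕ × ℕ => AdjN x.1 x.2.1 x.2.2) := by
  have hi : Primrec (fun x : ℕ × ℕ × ℕ => x.2.1) := Primrec.fst.comp Primrec.snd
  have hj : Primrec (fun x : ℕ × ℕ × ℕ => x.2.2) := Primrec.snd.comp Primrec.snd
  have hw : Primrec (fun x : ℕ × ℕ × ℕ => wd x.1) := prim_wd.comp Primrec.fst
  have di : Primrec (fun x : ℕ × ℕ × ℕ => x.2.1 / wd x.1) := Primrec.nat_div.comp hi hw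
  have dj : Primrec (fun x : ℕ × ℕ × ℕ => x.2.2 / wd x.1) := Primrec.nat_div.comp hj hw
  have mi : Primrec (fun x : ℕ × ℕ × ℕ => x.2.1 % wd x.1) := Primrec.nat_mod.comp hi hw
  have mj : Primrec (fun x : ℕ × ℕ × ℕ => x.2.2 % wd x.1) := Primrec.nat_mod.comp hj hw
  exact ((Primrec.eq.comp di dj).and ((Primrec.eq.comp (Primrec.succ.comp mi) mj).or
      (Primrec.eq.comp (Primrec.succ.comp mj) mi))).or
    ((Primrec.eq.comp mi mj).and ((Primrec.eq.comp (Primrec.succ.comp di) dj).or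
      (Primrec.eq.comp (Primrec.succ.comp dj) di)))

theorem prim_Q : PrimrecRel Q := by
  have hn : Primrec (fun x : ℕ × ℕ => x.1) := Primrec.fst
  have hm : Primrec (fun x : ℕ × ℕ => x.2) := Primrec.snd
  have hsz : Primrec (fun x : ℕ × ℕ => sz x.1) := prim_sz.comp hn
  have hwd : Primrec (fun x : ℕ × ℕ => wd x.1) := prim_wd.comp hn
  -- part 1
  have p1 : PrimrecPred (fun x : ℕ × ℕ =>
      ((List.range (sz x.1)).filter (fun i => Bit x.2 i)).length = x.1) := by
    have h1 := len_filter (α := ℕ × ℕ) (f := fun x => sz x.1) (R := fun x i => Bit x.2 i) hsz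
      (prim_bit.comp (Primrec.snd.comp Primrec.fst) Primrec.snd)
    exact Primrec.eq.comp h1 hn
  have p2 : PrimrecPred (fun x : ℕ × ℕ => Bit x.2 (x.1 * wd x.1 + x.1)) :=
    prim_bit.comp hm (Primrec.nat_add.comp (Primrec.nat_mul.comp hn hwd) hn)
  have p3 : PrimrecPred (fun x : ℕ × ℕ => ∀ i < sz x.1, ¬ Bit x.2 i ∨
      (x.1 < i % wd x.1 ∨ (i % wd x.1 = x.1 ∧ x.1 ≤ i / wd x.1))) := by
    apply all_lt hsz
    have hi : Primrec (fun y : (ℕ × ℕ) × ℕ => y.2) := Primrec.snd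
    have hn' : Primrec (fun y : (ℕ × ℕ) × ℕ => y.1.1) := Primrec.fst.comp Primrec.fst
    have hm' : Primrec (fun y : (ℕ × ℕ) × ℕ => y.1.2) := Primrec.snd.comp Primrec.fst
    have hw' : Primrec (fun y : (ℕ × ℕ) × ℕ => wd y.1.1) := prim_wd.comp hn'
    have hmod : Primrec (fun y : (ℕ × ℕ) × ℕ => y.2 % wd y.1.1) := Primrec.nat_mod.comp hi hw'
    have hdiv : Primrec (fun y : (ℕ × ℕ) × ℕ => y.2 / wd y.1.1) := Primrec.nat_div.comp hi hw'
    exact (prim_bit.comp hm' hi).not.or ((Primrec.nat_lt.comp hn' hmod).or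
      ((Primrec.eq.comp hmod hn').and (Primrec.nat_le.comp hn' hdiv)))
  have p4 : PrimrecPred (fun x : ℕ × ℕ =>
      ∀ s < 2 ^ sz x.1, ¬ (∃ i < sz x.1, Bit s i) ∨ (∃ i < sz x.1, Bit s i ∧ ¬ Bit x.2 i) ∨
        ¬ (∃ i < sz x.1, Bit x.2 i ∧ ¬ Bit s i) ∨
        ∃ i < sz x.1, ∃ j < sz x.1, (Bit s i ∧ Bit x.2 j) ∧ ¬ Bit s j ∧ AdjN x.1 i j) := by
    refine all_lt (f := fun x : ℕ × ℕ => 2 ^ sz x.1) (nat_pow.comp (Primrec.const 2) hsz) ?_
    -- variables: y = (x, s)
    have hsz' : Primrec (fun y : (ℕ × ℕ) × ℕ => sz y.1.1) :=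
      prim_sz.comp (Primrec.fst.comp Primrec.fst)
    -- z = (y, i)
    have zs : Primrec (fun z : ((ℕ × ℕ) × ℕ) × ℕ => z.1.2) := Primrec.snd.comp Primrec.fst
    have zm : Primrec (fun z : ((ℕ × ℕ) × ℕ) × ℕ => z.1.1.2) :=
      Primrec.snd.comp (Primrec.fst.comp Primrec.fst)
    have zi : Primrec (fun z : ((ℕ × ℕ) × ℕ) × ℕ => z.2) := Primrec.snd
    have b1 : PrimrecPred (fun y : (ℕ × ℕ) × ℕ => ∃ i < sz y.1.1, Bit y.2 i) :=
      ex_lt hsz' (prim_bit.comp zs zi)
    have b2 : PrimrecPred (fun y : (ℕ × ℕ) × ℕ => ∃ i < sz y.1.1, Bit y.2 i ∧ ¬ Bit y.1.2 i) :=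
      ex_lt hsz' ((prim_bit.comp zs zi).and (prim_bit.comp zm zi).not)
    have b3 : PrimrecPred (fun y : (ℕ × ℕ) × ℕ => ∃ i < sz y.1.1, Bit y.1.2 i ∧ ¬ Bit y.2 i) :=
      ex_lt hsz' ((prim_bit.comp zm zi).and (prim_bit.comp zs zi).not)
    have b4 : PrimrecPred (fun y : (ℕ × ℕ) × ℕ => ∃ i < sz y.1.1, ∃ j < sz y.1.1,
        (Bit y.2 i ∧ Bit y.1.2 j) ∧ ¬ Bit y.2 j ∧ AdjN y.1.1 i j) := by
      apply ex_lt hsz'
      refine ex_lt (α := ((ℕ × ℕ) × ℕ) × ℕ) (f := fun z => sz z.1.1.1)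
        (prim_sz.comp (Primrec.fst.comp (Primrec.fst.comp Primrec.fst))) ?_
      -- q = (z, j)
      have qs : Primrec (fun q : (((ℕ × ℕ) × ℕ) × ℕ) × ℕ => q.1.1.2) :=
        Primrec.snd.comp (Primrec.fst.comp Primrec.fst)
      have qm : Primrec (fun q : (((ℕ × ℕ) × ℕ) × ℕ) × ℕ => q.1.1.1.2) :=
        Primrec.snd.comp (Primrec.fst.comp (Primrec.fst.comp Primrec.fst))
      have qn : Primrec (fun q : (((ℕ × ℕ) × ℕ) × ℕ) × ℕ => q.1.1.1.1) :=
        Primrec.fst.comp (Primrec.fst.comp (Primrec.fst.comp Primrec.fst))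
      have qi : Primrec (fun q : (((ℕ × ℕ) × ℕ) × ℕ) × ℕ => q.1.2) := Primrec.snd.comp Primrec.fst
      have qj : Primrec (fun q : (((ℕ × ℕ) × ℕ) × ℕ) × ℕ => q.2) := Primrec.snd
      exact ((prim_bit.comp qs qi).and (prim_bit.comp qm qj)).and
        ((prim_bit.comp qs qj).not.and (prim_adj.comp (Primrec.pair qn (Primrec.pair qi qj))))
    exact b1.not.or (b2.or (b3.not.or b4))
  exact p1.and (p2.and (p3.and p4))

open Classical in
/-- The number of fixed `n`-ominoes is a primitive recursive function of `n`. -/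
theorem prim_t : Primrec t := by
  have h := len_filter (α := ℕ) (f := fun n => 2 ^ sz n) (R := fun n m => Q n m)
    (nat_pow.comp (Primrec.const 2) prim_sz) prim_Q
  exact h.of_eq (fun n => (t_eq_length n).symm)

/-- The test `576 k³ t(k) 2^(nk) ≤ m^k` for `n+1 ≤ k ≤ 5(n+1)`. -/
def P (n m : ℕ) : Prop :=
  ∀ k < 5 * (n + 1) + 1, ¬ (n + 1 ≤ k) ∨ 576 * k ^ 3 * t k * (2 ^ n) ^ k ≤ m ^ k

theorem prim_P : PrimrecRel P := by
  have hf : Primrec (fun x : ℕ × ℕ => 5 * (x.1 + 1) + 1) :=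
    Primrec.succ.comp (Primrec.nat_mul.comp (Primrec.const 5) (Primrec.succ.comp Primrec.fst))
  refine all_lt hf ?_
  have hn : Primrec (fun y : (ℕ × ℕ) × ℕ => y.1.1) := Primrec.fst.comp Primrec.fst
  have hm : Primrec (fun y : (ℕ × ℕ) × ℕ => y.1.2) := Primrec.snd.comp Primrec.fst
  have hk : Primrec (fun y : (ℕ × ℕ) × ℕ => y.2) := Primrec.snd
  exact (Primrec.nat_le.comp (Primrec.succ.comp hn) hk).not.or
    (Primrec.nat_le.comp
      (Primrec.nat_mul.comp (Primrec.nat_mul.comp (Primrec.nat_mul.comp (Primrec.const 576)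
        (nat_pow.comp hk (Primrec.const 3))) (prim_t.comp hk))
        (nat_pow.comp (nat_pow.comp (Primrec.const 2) hn) hk))
      (nat_pow.comp hm hk))

theorem exists_P (n : ℕ) : ∃ m, P n m := by
  let X : ℕ → ℕ := fun k => 576 * k ^ 3 * t k
  refine ⟨2 ^ n * ∑ k ∈ Finset.range (5 * (n + 1) + 1), X k, ?_⟩
  intro k hk
  by_cases hnk : n + 1 ≤ k
  · right
    have h1 : X k ≤ ∑ k ∈ Finset.range (5 * (n + 1) + 1), X k :=
      Finset.single_le_sum (f := X) (fun i _ => Nat.zero_le _) (Finset.mem_range.mpr hk)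
    have h2 : ∑ k ∈ Finset.range (5 * (n + 1) + 1), X k ≤
        (∑ k ∈ Finset.range (5 * (n + 1) + 1), X k) ^ k := Nat.le_self_pow (by omega) _
    rw [mul_pow, mul_comm]
    exact Nat.mul_le_mul_left _ (h1.trans h2)
  · left; exact hnk

open Classical in
/-- The least `m` with `P n m`. -/
noncomputable def v (n : ℕ) : ℕ := Nat.find (exists_P n)

open Classical in
theorem comp_v : Computable v := by
  have h : ComputablePred (fun p : ℕ × ℕ => P p.1 p.2) :=
    ⟨inferInstance, (PrimrecPred.decide prim_P).to_comp⟩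
  exact Computable.find h exists_P

theorem v_spec (n : ℕ) : P n (v n) := by
  classical
  exact Nat.find_spec (exists_P n)

theorem v_min {n m : ℕ} (h : m < v n) : ¬ P n m := by
  classical
  exact Nat.find_min (exists_P n) h

theorem v_pos (n : ℕ) : 1 ≤ v n := by
  by_contra h
  have h0 : v n = 0 := by omega
  have h1 := v_spec n (n + 1) (by omega)
  rw [h0] at h1
  rcases h1 with h1 | h1
  · exact h1 le_rfl
  · have h2 : 1 ≤ t (n + 1) := t_pos (by omega)
    have h3 : 0 < 576 * (n + 1) ^ 3 * t (n + 1) * (2 ^ n) ^ (n + 1) := by positivity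
    simp at h1
    omega

theorem lam_le_v (n : ℕ) : lam ≤ (v n : ℝ) / 2 ^ n := by
  have hv : (0 : ℝ) < v n := by exact_mod_cast v_pos n
  apply lam_le (n + 1) (by omega) _ (by positivity)
  intro k hk1 hk2
  have h := (v_spec n k (by omega)).resolve_left (not_not.mpr hk1)
  have h' : 576 * (k : ℝ) ^ 3 * t k * (2 ^ n) ^ k ≤ (v n : ℝ) ^ k := by exact_mod_cast h
  rw [div_pow, le_div_iff₀ (by positivity)]
  exact h'

theorem v_le (n : ℕ) (δ : ℝ) (hδ : 0 < δ) (h : ∀ k : ℕ, n + 1 ≤ k → 576 * (k : ℝ) ^ 3 ≤ (1 + δ) ^ k) :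
    (v n : ℝ) / 2 ^ n ≤ (1 + δ) * lam + 1 / 2 ^ n := by
  have hv := v_pos n
  have hlt : v n - 1 < v n := by omega
  have h1 := v_min hlt
  unfold P at h1
  push Not at h1
  obtain ⟨k, hk, hk1, hk2⟩ := h1
  have hk0 : 1 ≤ k := by omega
  have h2 : ((v n - 1 : ℕ) : ℝ) ^ k < 576 * (k : ℝ) ^ 3 * t k * (2 ^ n) ^ k := by exact_mod_cast hk2
  have h3 : ((v n - 1 : ℕ) : ℝ) ^ k < ((1 + δ) * lam * 2 ^ n) ^ k := by
    calc ((v n - 1 : ℕ) : ℝ) ^ k < 576 * (k : ℝ) ^ 3 * t k * (2 ^ n) ^ k := h2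
      _ ≤ (1 + δ) ^ k * lam ^ k * (2 ^ n) ^ k := by
          apply mul_le_mul_of_nonneg_right _ (by positivity)
          exact mul_le_mul (h k hk1) (t_le_lam_pow k hk0) (by positivity) (by positivity)
      _ = ((1 + δ) * lam * 2 ^ n) ^ k := by rw [mul_pow, mul_pow]
  have hlam := lam_pos
  have h4 : ((v n - 1 : ℕ) : ℝ) < (1 + δ) * lam * 2 ^ n :=
    lt_of_pow_lt_pow_left₀ k (by positivity) h3
  rw [Nat.cast_sub hv] at h4
  push_cast at h4
  rw [div_le_iff₀ (by positivity), add_mul, one_div, inv_mul_cancel₀ (by positivity)]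
  linarith

theorem tendsto_v : Tendsto (fun n : ℕ => (v n : ℝ) / 2 ^ n) atTop (𝓝 lam) := by
  rw [tendsto_order]
  refine ⟨fun a ha => ?_, fun b hb => ?_⟩
  · filter_upwards with n
    exact ha.trans_le (lam_le_v n)
  · have hlam := lam_pos
    obtain ⟨δ, hδ, hδb⟩ : ∃ δ : ℝ, 0 < δ ∧ (1 + δ) * lam < b := by
      refine ⟨(b - lam) / (2 * lam), by apply div_pos <;> linarith, ?_⟩
      have : (1 + (b - lam) / (2 * lam)) * lam = (b + lam) / 2 := by field_simp; ring
      rw [this]; linarith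
    have h1 : ∀ᶠ k : ℕ in atTop, 576 * (k : ℝ) ^ 3 ≤ (1 + δ) ^ k := by
      have h2 := tendsto_pow_const_div_const_pow_of_one_lt 3 (by linarith : (1 : ℝ) < 1 + δ)
      have h3 := h2.eventually (gt_mem_nhds (by norm_num : (0 : ℝ) < 1 / 576))
      filter_upwards [h3] with k hk
      rw [div_lt_iff₀ (by positivity)] at hk
      linarith
    obtain ⟨N, hN⟩ := eventually_atTop.mp h1
    have h4 : Tendsto (fun n : ℕ => (1 + δ) * lam + 1 / (2 : ℝ) ^ n) atTop
        (𝓝 ((1 + δ) * lam + 0)) := by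
      apply tendsto_const_nhds.add
      have := tendsto_pow_atTop_nhds_zero_of_lt_one (r := (1 / 2 : ℝ)) (by norm_num) (by norm_num)
      simpa [one_div, inv_pow] using this
    rw [add_zero] at h4
    filter_upwards [h4.eventually (gt_mem_nhds hδb), eventually_ge_atTop N] with n hn hnN
    exact (v_le n δ hδ (fun k hk => hN k (by omega))).trans_lt hn

/-- running minimum -/
noncomputable def w : ℕ → ℕ
  | 0 => v 0
  | n + 1 => min (2 * w n) (v (n + 1))

theorem comp_w : Computable w := by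
  have h : Computable (fun n : ℕ => Nat.rec (motive := fun _ => ℕ) (v 0)
      (fun m y => min (2 * y) (v (m + 1))) n) := by
    refine Computable.nat_rec (f := fun n : ℕ => n) (g := fun _ => v 0)
      (h := fun _ (p : ℕ × ℕ) => min (2 * p.2) (v (p.1 + 1))) Computable.id
      (Computable.const _) ?_
    have h1 : Computable (fun q : ℕ × ℕ × ℕ => 2 * q.2.2) :=
      (Primrec.nat_mul.comp (Primrec.const 2) (Primrec.snd.comp Primrec.snd)).to_comp
    have h2 : Computable (fun q : ℕ × ℕ × ℕ => v (q.2.1 + 1)) :=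
      comp_v.comp (Primrec.succ.comp (Primrec.fst.comp Primrec.snd)).to_comp
    exact Primrec.nat_min.to_comp.comp h1 h2
  refine h.of_eq (fun n => ?_)
  induction n with
  | zero => rfl
  | succ n ih => simp only [w]; rw [← ih]

theorem w_le_v (n : ℕ) : w n ≤ v n := by
  cases n with
  | zero => exact le_rfl
  | succ n => exact min_le_right _ _

theorem lam_le_w (n : ℕ) : lam ≤ (w n : ℝ) / 2 ^ n := by
  induction n with
  | zero => exact lam_le_v 0
  | succ n ih =>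
    rcases min_choice (2 * w n) (v (n + 1)) with h | h
    · have : w (n + 1) = 2 * w n := h
      rw [this]
      push_cast
      rw [pow_succ, mul_comm (2 ^ n : ℝ) 2, mul_div_mul_left _ _ (by norm_num)]
      exact ih
    · have : w (n + 1) = v (n + 1) := h
      rw [this]
      exact lam_le_v (n + 1)

theorem tendsto_w : Tendsto (fun n : ℕ => (w n : ℝ) / 2 ^ n) atTop (𝓝 lam) := by
  refine tendsto_of_tendsto_of_tendsto_of_le_of_le tendsto_const_nhds tendsto_v
    (fun n => lam_le_w n) (fun n => ?_)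
  have : (w n : ℝ) ≤ v n := by exact_mod_cast w_le_v n
  exact div_le_div_of_nonneg_right this (by positivity)

/-- Klarner's constant is the limit of a computable strictly decreasing sequence of rationals. -/
theorem exists_beta : ∃ β : ℕ → ℚ,
    (∃ p q : ℕ → ℕ, Computable p ∧ Computable q ∧ ∀ n, 0 < q n ∧ β n = (p n : ℚ) / (q n : ℚ)) ∧
    StrictAnti β ∧ Tendsto (fun n => (β n : ℝ)) atTop (𝓝 lam) := by
  refine ⟨fun n => ((w n + 1 : ℕ) : ℚ) / ((2 ^ n : ℕ) : ℚ),
    ⟨fun n => w n + 1, fun n => 2 ^ n, Computable.succ.comp comp_w,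
      (nat_pow.comp (Primrec.const 2) Primrec.id).to_comp, fun n => ⟨by positivity, rfl⟩⟩, ?_, ?_⟩
  · apply strictAnti_nat_of_succ_lt
    intro n
    have h : w (n + 1) ≤ 2 * w n := min_le_left _ _
    have h2 : w (n + 1) + 1 < (w n + 1) * 2 := by omega
    rw [div_lt_div_iff₀ (by positivity) (by positivity)]
    have h3 : (w (n + 1) + 1) * 2 ^ n < (w n + 1) * 2 ^ (n + 1) := by
      rw [pow_succ, mul_comm (2 ^ n) 2, ← mul_assoc]
      exact Nat.mul_lt_mul_of_pos_right h2 (by positivity)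
    exact_mod_cast h3
  · have h1 : Tendsto (fun n : ℕ => (w n : ℝ) / 2 ^ n + 1 / (2 : ℝ) ^ n) atTop (𝓝 (lam + 0)) := by
      apply tendsto_w.add
      have := tendsto_pow_atTop_nhds_zero_of_lt_one (r := (1 / 2 : ℝ)) (by norm_num) (by norm_num)
      simpa [one_div, inv_pow] using this
    rw [add_zero] at h1
    refine h1.congr (fun n => ?_)
    push_cast
    ring

end Pool.Agent.Y382.Poly
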