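import Pool.Agent.Y382.Poly.Cut

/-!
# Counting fixed polyominoes: near-submultiplicativity and supermultiplicativity
-/

namespace Pool.Agent.Y382.Poly

open Finset

/-- Edge adjacency of cells. -/
def adj (p q : ℤ × ℤ) : Prop := |p.1 - q.1| + |p.2 - q.2| = 1

theorem adj_symm (p q : ℤ × ℤ) (h : adj p q) : adj q p := by
  unfold adj at *
  rw [abs_sub_comm q.1, abs_sub_comm q.2]
  exact h

theorem adj_ne {p q : ℤ × ℤ} (h : adj p q) : p ≠ q := by
  rintro rfl
  simp [adj] at h

/-- `(G.induce S).Connected` for the square grid is cut-connectedness. -/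
theorem conn_iff (S : Finset (ℤ × ℤ)) :
    ((SimpleGraph.fromRel (fun p q : ℤ × ℤ => |p.1 - q.1| + |p.2 - q.2| = 1)).induce
      (S : Set (ℤ × ℤ))).Connected ↔ CutConn adj S := by
  classical
  set G := SimpleGraph.fromRel (fun p q : ℤ × ℤ => |p.1 - q.1| + |p.2 - q.2| = 1) with hG
  have hadj : ∀ p q, G.Adj p q ↔ adj p q := by
    intro p q
    rw [hG, SimpleGraph.fromRel_adj]
    constructor
    · rintro ⟨_, h | h⟩
      · exact h
      · exact adj_symm _ _ h
    · intro h
      exact ⟨adj_ne h, Or.inl h⟩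
  constructor
  · intro h
    refine ⟨?_, ?_⟩
    · obtain ⟨x⟩ := h.nonempty
      exact ⟨x.1, x.2⟩
    · intro U hU hne hne'
      obtain ⟨a, ha⟩ := hne
      obtain ⟨c, hcS, hcU⟩ : ∃ c ∈ S, c ∉ U := by
        by_contra hcon
        push Not at hcon
        exact hne' (Subset.antisymm hU hcon)
      obtain ⟨w⟩ := h.preconnected (⟨a, hU ha⟩ : (S : Set (ℤ × ℤ))) ⟨c, hcS⟩
      obtain ⟨d, _, hd1, hd2⟩ := w.exists_boundary_dart {x | (x : ℤ × ℤ) ∈ U} ha hcU
      refine ⟨d.fst, hd1, d.snd, ?_, ?_⟩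
      · rw [mem_sdiff]
        exact ⟨d.snd.2, hd2⟩
      · rw [← hadj]
        exact d.adj
  · rintro ⟨⟨a, ha⟩, hcut⟩
    have : Nonempty (S : Set (ℤ × ℤ)) := ⟨⟨a, ha⟩⟩
    refine SimpleGraph.Connected.mk ?_
    intro x y
    let U := S.filter (fun z => ∃ hz : z ∈ S, (G.induce (S : Set (ℤ × ℤ))).Reachable x ⟨z, hz⟩)
    have hxU : (x : ℤ × ℤ) ∈ U := mem_filter.mpr ⟨x.2, x.2, SimpleGraph.Reachable.refl _⟩
    have hUS : U = S := by
      by_contra hne
      obtain ⟨u, hu, v, hv, huv⟩ := hcut U (filter_subset _ _) ⟨_, hxU⟩ hne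
      obtain ⟨huS, _, hr⟩ := mem_filter.mp hu
      rw [mem_sdiff] at hv
      apply hv.2
      refine mem_filter.mpr ⟨hv.1, hv.1, hr.trans ?_⟩
      apply SimpleGraph.Adj.reachable
      rw [SimpleGraph.comap_adj]
      exact (hadj _ _).mpr huv
    have hy : (y : ℤ × ℤ) ∈ U := by rw [hUS]; exact y.2
    obtain ⟨_, _, h⟩ := mem_filter.mp hy
    exact h

/-- The four neighbours. -/
def nb (a : ℤ × ℤ) : Finset (ℤ × ℤ) :=
  {(a.1 + 1, a.2), (a.1 - 1, a.2), (a.1, a.2 + 1), (a.1, a.2 - 1)}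

theorem nb_card (a : ℤ × ℤ) : (nb a).card ≤ 4 := Finset.card_le_four

theorem mem_nb {a b : ℤ × ℤ} (h : adj a b) : b ∈ nb a := by
  obtain ⟨a1, a2⟩ := a
  obtain ⟨b1, b2⟩ := b
  simp only [adj] at h
  simp only [nb, mem_insert, mem_singleton, Prod.mk.injEq]
  rcases abs_cases (a1 - b1) with ⟨h1, _⟩ | ⟨h1, _⟩ <;>
    rcases abs_cases (a2 - b2) with ⟨h2, _⟩ | ⟨h2, _⟩ <;> rw [h1, h2] at h <;> omega

/-- Translate of a set of cells. -/
def shift (v : ℤ × ℤ) (S : Finset (ℤ × ℤ)) : Finset (ℤ × ℤ) := S.image (fun p => p + v)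

theorem mem_shift {v p : ℤ × ℤ} {S : Finset (ℤ × ℤ)} : p ∈ shift v S ↔ p - v ∈ S := by
  simp only [shift, mem_image]
  constructor
  · rintro ⟨q, hq, rfl⟩; simpa using hq
  · intro h; exact ⟨p - v, h, by simp⟩

theorem zero_mem_shift {m : ℤ × ℤ} {S : Finset (ℤ × ℤ)} (h : m ∈ S) :
    ((0 : ℤ), (0 : ℤ)) ∈ shift (-m) S := by
  rw [mem_shift, sub_neg_eq_add, show ((0 : ℤ), (0 : ℤ)) + m = m from zero_add m]
  exact h

theorem neg_mem_shift {m : ℤ × ℤ} {S : Finset (ℤ × ℤ)} (h : ((0 : ℤ), (0 : ℤ)) ∈ S) :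
    -m ∈ shift (-m) S := by
  rw [mem_shift, sub_self]
  exact h

theorem shift_card (v : ℤ × ℤ) (S : Finset (ℤ × ℤ)) : (shift v S).card = S.card :=
  card_image_of_injective _ (add_left_injective v)

theorem shift_shift (v w : ℤ × ℤ) (S : Finset (ℤ × ℤ)) : shift v (shift w S) = shift (w + v) S := by
  ext p
  rw [mem_shift, mem_shift, mem_shift, sub_sub, add_comm v w]

theorem shift_zero (S : Finset (ℤ × ℤ)) : shift 0 S = S := by
  ext p
  rw [mem_shift, sub_zero]

theorem adj_shift {p q : ℤ × ℤ} (v : ℤ × ℤ) (h : adj p q) : adj (p + v) (q + v) := by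
  unfold adj at *
  simpa using h

theorem CutConn.shift {S : Finset (ℤ × ℤ)} (hS : CutConn adj S) (v : ℤ × ℤ) :
    CutConn adj (shift v S) := by
  refine ⟨?_, fun U hU hne hne' => ?_⟩
  · obtain ⟨a, ha⟩ := hS.1
    exact ⟨a + v, by rw [mem_shift]; simpa using ha⟩
  · obtain ⟨a, ha, b, hb, hab⟩ := hS.2 (Poly.shift (-v) U) (by
      intro x hx
      rw [mem_shift] at hx
      have := hU hx
      rw [mem_shift] at this
      simpa using this) (by
      obtain ⟨a, ha⟩ := hne
      exact ⟨a - v, by rw [mem_shift]; simpa using ha⟩) (by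
      intro he
      apply hne'
      rw [← he, shift_shift]
      simp [shift_zero])
    rw [mem_shift, sub_neg_eq_add] at ha
    rw [mem_sdiff, mem_shift, sub_neg_eq_add] at hb
    refine ⟨a + v, ha, b + v, ?_, adj_shift v hab⟩
    rw [mem_sdiff, mem_shift]
    exact ⟨by simpa using hb.1, hb.2⟩

theorem dist_le {S : Finset (ℤ × ℤ)} (hS : CutConn adj S) (h0 : (0, 0) ∈ S) :
    ∀ p ∈ S, |p.1| + |p.2| + 1 ≤ (S.card : ℤ) := by
  let U : ℕ → Finset (ℤ × ℤ) := fun k => S.filter (fun p => |p.1| + |p.2| ≤ (k : ℤ))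
  have key : ∀ k : ℕ, k + 1 ≤ (U k).card ∨ U k = S := by
    intro k
    induction k with
    | zero =>
      left
      have : ((0 : ℤ), (0 : ℤ)) ∈ U 0 := mem_filter.mpr ⟨h0, by simp⟩
      exact card_pos.mpr ⟨_, this⟩
    | succ k ih =>
      by_cases hk : U k = S
      · right
        apply Subset.antisymm (filter_subset _ _)
        intro p hp
        have : p ∈ U k := by rw [hk]; exact hp
        refine mem_filter.mpr ⟨hp, ?_⟩
        have h2 := (mem_filter.mp this).2
        push_cast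
        linarith
      · left
        rcases ih with ih | ih
        · obtain ⟨a, ha, b, hb, hab⟩ := hS.2 (U k) (filter_subset _ _)
            ⟨(0, 0), mem_filter.mpr ⟨h0, by simp⟩⟩ hk
          rw [mem_sdiff] at hb
          have hlt : U k ⊂ U (k + 1) := by
            rw [ssubset_iff_of_subset]
            · refine ⟨b, mem_filter.mpr ⟨hb.1, ?_⟩, hb.2⟩
              have h1 := (mem_filter.mp ha).2
              unfold adj at hab
              have h2 : |b.1| ≤ |a.1| + |a.1 - b.1| := by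
                have := abs_sub_abs_le_abs_sub b.1 a.1
                rw [abs_sub_comm] at this
                linarith
              have h3 : |b.2| ≤ |a.2| + |a.2 - b.2| := by
                have := abs_sub_abs_le_abs_sub b.2 a.2
                rw [abs_sub_comm] at this
                linarith
              push_cast
              linarith
            · intro p hp
              have h1 := mem_filter.mp hp
              refine mem_filter.mpr ⟨h1.1, ?_⟩
              push_cast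
              linarith [h1.2]
          have := card_lt_card hlt
          omega
        · exact absurd ih hk
  intro p hp
  by_contra hlt
  push Not at hlt
  have hc : 1 ≤ S.card := card_pos.mpr ⟨p, hp⟩
  rcases key (S.card - 1) with h | h
  · have h1 : (U (S.card - 1)).card ≤ S.card := card_le_card (filter_subset _ _)
    have h2 : U (S.card - 1) = S := eq_of_subset_of_card_le (filter_subset _ _) (by omega)
    have h3 : p ∈ U (S.card - 1) := by rw [h2]; exact hp
    have h4 := (mem_filter.mp h3).2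
    push_cast [Nat.cast_sub hc] at h4
    linarith
  · have h3 : p ∈ U (S.card - 1) := by rw [h]; exact hp
    have h4 := (mem_filter.mp h3).2
    push_cast [Nat.cast_sub hc] at h4
    linarith

/-- `[-n,n]²` -/
noncomputable def box (n : ℕ) : Finset (ℤ × ℤ) := Icc (-(n : ℤ)) n ×ˢ Icc (-(n : ℤ)) n

theorem subset_box {S : Finset (ℤ × ℤ)} (hS : CutConn adj S) (h0 : (0, 0) ∈ S) :
    S ⊆ box S.card := by
  intro p hp
  have := dist_le hS h0 p hp
  have h1 := abs_nonneg p.1
  have h2 := abs_nonneg p.2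
  rw [box, mem_product, mem_Icc, mem_Icc, ← abs_le, ← abs_le]
  constructor <;> linarith

open Classical in
/-- Connected sets of `n` cells containing the origin. -/
noncomputable def Cs (n : ℕ) : Finset (Finset (ℤ × ℤ)) :=
  (box n).powerset.filter (fun S => S.card = n ∧ (0, 0) ∈ S ∧ CutConn adj S)

open Classical in
/-- Connected sets of `n` cells whose lowest-leftmost cell is the origin. -/
noncomputable def Ts (n : ℕ) : Finset (Finset (ℤ × ℤ)) :=
  (Cs n).filter (fun S => ∀ p ∈ S, 0 < p.2 ∨ (p.2 = 0 ∧ 0 ≤ p.1))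

theorem mem_Cs {n : ℕ} {S : Finset (ℤ × ℤ)} :
    S ∈ Cs n ↔ S.card = n ∧ (0, 0) ∈ S ∧ CutConn adj S := by
  classical
  rw [Cs, mem_filter, mem_powerset]
  constructor
  · rintro ⟨_, h⟩; exact h
  · rintro ⟨h1, h2, h3⟩
    exact ⟨h1 ▸ subset_box h3 h2, h1, h2, h3⟩

theorem mem_Ts {n : ℕ} {S : Finset (ℤ × ℤ)} :
    S ∈ Ts n ↔ (S.card = n ∧ (0, 0) ∈ S ∧ CutConn adj S) ∧
      ∀ p ∈ S, 0 < p.2 ∨ (p.2 = 0 ∧ 0 ≤ p.1) := by
  classical
  rw [Ts, mem_filter, mem_Cs]

/-- number of connected `n`-cell sets containing the origin -/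
noncomputable def c (n : ℕ) : ℕ := (Cs n).card

/-- number of fixed `n`-ominoes -/
noncomputable def t (n : ℕ) : ℕ := (Ts n).card

theorem t_le_c (n : ℕ) : t n ≤ c n := card_le_card (by
  intro S hS
  rw [mem_Ts] at hS
  exact mem_Cs.mpr hS.1)

/-- lexicographic order: row first, then column -/
def lt (p q : ℤ × ℤ) : Prop := p.2 < q.2 ∨ (p.2 = q.2 ∧ p.1 < q.1)

theorem exists_lexmin {S : Finset (ℤ × ℤ)} (h : S.Nonempty) :
    ∃ m ∈ S, ∀ p ∈ S, m.2 < p.2 ∨ (m.2 = p.2 ∧ m.1 ≤ p.1) := by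
  obtain ⟨m, hm, hmin⟩ := exists_min_image S (fun p => toLex (p.2, p.1)) h
  refine ⟨m, hm, fun p hp => ?_⟩
  have := hmin p hp
  rw [Prod.Lex.toLex_le_toLex] at this
  exact this

theorem exists_lexmax {S : Finset (ℤ × ℤ)} (h : S.Nonempty) :
    ∃ m ∈ S, ∀ p ∈ S, p.2 < m.2 ∨ (p.2 = m.2 ∧ p.1 ≤ m.1) := by
  obtain ⟨m, hm, hmax⟩ := exists_max_image S (fun p => toLex (p.2, p.1)) h
  refine ⟨m, hm, fun p hp => ?_⟩
  have := hmax p hp
  rw [Prod.Lex.toLex_le_toLex] at this
  exact this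

theorem c_le (n : ℕ) : c n ≤ n * t n := by
  classical
  have hsub : Cs n ⊆ (Ts n).biUnion (fun Q => Q.image (fun w => shift (-w) Q)) := by
    intro P hP
    obtain ⟨h1, h2, h3⟩ := mem_Cs.mp hP
    obtain ⟨m, hm, hmin⟩ := exists_lexmin h3.1
    have h0Q : ((0 : ℤ), (0 : ℤ)) ∈ shift (-m) P := zero_mem_shift hm
    refine mem_biUnion.mpr ⟨shift (-m) P, ?_, mem_image.mpr ⟨-m, ?_, ?_⟩⟩
    · rw [mem_Ts]
      refine ⟨⟨by rw [shift_card, h1], h0Q, h3.shift _⟩, ?_⟩
      intro p hp
      rw [mem_shift, sub_neg_eq_add] at hp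
      have := hmin _ hp
      simp only [Prod.fst_add, Prod.snd_add] at this
      omega
    · exact neg_mem_shift h2
    · rw [shift_shift]
      simp [shift_zero]
  refine (card_le_card hsub).trans (card_biUnion_le.trans ?_)
  have : ∀ Q ∈ Ts n, (Q.image (fun w => shift (-w) Q)).card ≤ n := by
    intro Q hQ
    exact card_image_le.trans (mem_Ts.mp hQ).1.1.le
  refine (Finset.sum_le_card_nsmul _ _ n this).trans ?_
  rw [smul_eq_mul, mul_comm]
  exact le_rfl

/-- The directions. -/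
def dirs : Finset (ℤ × ℤ) := nb (0, 0)

theorem sub_mem_dirs {a b : ℤ × ℤ} (h : adj a b) : b - a ∈ dirs := by
  apply mem_nb
  unfold adj at *
  simp only [Prod.fst_sub, Prod.snd_sub]
  have e1 : (0 : ℤ) - (b.1 - a.1) = a.1 - b.1 := by ring
  have e2 : (0 : ℤ) - (b.2 - a.2) = a.2 - b.2 := by ring
  rw [e1, e2]
  exact h

/-- Near-submultiplicativity. -/
theorem c_split (N : ℕ) (hN : 2 ≤ N) :
    c N ≤ ∑ k ∈ (range N).filter (fun k => N ≤ 5 * k + 1 ∧ 2 * k ≤ N),
      4 * N * (c k * c (N - k)) := by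
  classical
  let f : Finset (ℤ × ℤ) × Finset (ℤ × ℤ) → ℤ × ℤ → Finset (ℤ × ℤ) :=
    fun x e => x.1 ∪ shift e x.2
  have hsub : Cs N ⊆ ((range N).filter (fun k => N ≤ 5 * k + 1 ∧ 2 * k ≤ N)).biUnion
      (fun k => (Cs k ×ˢ Cs (N - k)).biUnion (fun x => dirs.biUnion (fun e =>
        (f x e).image (fun w => shift (-w) (f x e))))) := by
    intro P hP
    obtain ⟨h1, h2, h3⟩ := mem_Cs.mp hP
    obtain ⟨A, B, hAB, hd, hA, hB, hle, hsz, a, ha, b, hb, hab⟩ :=
      exists_split adj_symm nb (fun _ _ => mem_nb) nb_card h3 (h1 ▸ hN)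
    have hcard : P.card = A.card + B.card := by rw [hAB, card_union_of_disjoint hd]
    have hApos : 1 ≤ A.card := card_pos.mpr ⟨a, ha⟩
    have hBpos : 1 ≤ B.card := card_pos.mpr ⟨b, hb⟩
    refine mem_biUnion.mpr ⟨A.card, mem_filter.mpr ⟨mem_range.mpr (by omega), by omega, by omega⟩,
      ?_⟩
    refine mem_biUnion.mpr ⟨(shift (-a) A, shift (-b) B), mem_product.mpr ⟨mem_Cs.mpr ?_,
      mem_Cs.mpr ?_⟩, ?_⟩
    · exact ⟨shift_card _ _, zero_mem_shift ha, hA.shift _⟩
    · refine ⟨?_, zero_mem_shift hb, hB.shift _⟩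
      rw [shift_card]
      omega
    · have hf : f (shift (-a) A, shift (-b) B) (b - a) = shift (-a) P := by
        ext p
        simp only [f]
        rw [mem_union, shift_shift, mem_shift, mem_shift, mem_shift, hAB, mem_union]
        have : -b + (b - a) = -a := by abel
        rw [this]
      refine mem_biUnion.mpr ⟨b - a, sub_mem_dirs hab, mem_image.mpr ⟨-a, ?_, ?_⟩⟩
      · rw [hf]
        exact neg_mem_shift h2
      · rw [hf, shift_shift]
        simp [shift_zero]
  refine (card_le_card hsub).trans (card_biUnion_le.trans (sum_le_sum ?_))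
  intro k hk
  have hkN := mem_range.mp (mem_filter.mp hk).1
  refine card_biUnion_le.trans ?_
  have : ∀ x ∈ Cs k ×ˢ Cs (N - k), (dirs.biUnion (fun e =>
      (f x e).image (fun w => shift (-w) (f x e)))).card ≤ 4 * N := by
    intro x hx
    rw [mem_product, mem_Cs, mem_Cs] at hx
    refine card_biUnion_le.trans ?_
    have h4 : ∀ e ∈ dirs, ((f x e).image (fun w => shift (-w) (f x e))).card ≤ N := by
      intro e _
      refine card_image_le.trans ((card_union_le _ _).trans ?_)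
      rw [shift_card, hx.1.1, hx.2.1]
      omega
    refine (Finset.sum_le_card_nsmul _ _ N h4).trans ?_
    rw [smul_eq_mul]
    exact Nat.mul_le_mul_right _ (nb_card _)
  refine (Finset.sum_le_card_nsmul _ _ _ this).trans ?_
  rw [smul_eq_mul, card_product, mul_comm]
  exact le_rfl

end Pool.Agent.Y382.Poly
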