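import Mathlib

/-!
# Cut-connected finite sets: gluing and balanced splitting
-/

namespace Pool.Agent.Y382.Poly

open Finset

section General

variable {V : Type*} [DecidableEq V] (adj : V → V → Prop)

/-- A finite set is connected when no nonempty proper subset is closed under adjacency. -/
def CutConn (S : Finset V) : Prop :=
  S.Nonempty ∧ ∀ U ⊆ S, U.Nonempty → U ≠ S → ∃ a ∈ U, ∃ b ∈ S \ U, adj a b

variable {adj}

theorem CutConn.union {S T : Finset V} (hS : CutConn adj S) (hT : CutConn adj T)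
    (hsymm : ∀ a b, adj a b → adj b a) {s t : V} (hs : s ∈ S) (ht : t ∈ T) (h : adj s t) :
    CutConn adj (S ∪ T) := by
  refine ⟨hS.1.mono subset_union_left, fun U hU hne hne' => ?_⟩
  by_cases h1 : (U ∩ S).Nonempty ∧ U ∩ S ≠ S
  · obtain ⟨a, ha, b, hb, hab⟩ := hS.2 (U ∩ S) inter_subset_right h1.1 h1.2
    rw [mem_inter] at ha
    rw [mem_sdiff, mem_inter] at hb
    refine ⟨a, ha.1, b, ?_, hab⟩
    rw [mem_sdiff, mem_union]
    exact ⟨Or.inl hb.1, fun h => hb.2 ⟨h, hb.1⟩⟩
  by_cases h2 : (U ∩ T).Nonempty ∧ U ∩ T ≠ T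
  · obtain ⟨a, ha, b, hb, hab⟩ := hT.2 (U ∩ T) inter_subset_right h2.1 h2.2
    rw [mem_inter] at ha
    rw [mem_sdiff, mem_inter] at hb
    refine ⟨a, ha.1, b, ?_, hab⟩
    rw [mem_sdiff, mem_union]
    exact ⟨Or.inr hb.1, fun h => hb.2 ⟨h, hb.1⟩⟩
  have h1' : (U ∩ S).Nonempty → S ⊆ U := by
    intro hn
    by_contra hc
    exact h1 ⟨hn, fun he => hc (he ▸ inter_subset_left)⟩
  have h2' : (U ∩ T).Nonempty → T ⊆ U := by
    intro hn
    by_contra hc
    exact h2 ⟨hn, fun he => hc (he ▸ inter_subset_left)⟩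
  by_cases hsU : s ∈ U
  · have hSU := h1' ⟨s, mem_inter.mpr ⟨hsU, hs⟩⟩
    by_cases htU : t ∈ U
    · have hTU := h2' ⟨t, mem_inter.mpr ⟨htU, ht⟩⟩
      exact absurd (Subset.antisymm hU (union_subset hSU hTU)) hne'
    · exact ⟨s, hsU, t, mem_sdiff.mpr ⟨mem_union_right _ ht, htU⟩, h⟩
  · by_cases htU : t ∈ U
    · exact ⟨t, htU, s, mem_sdiff.mpr ⟨mem_union_left _ hs, hsU⟩, hsymm _ _ h⟩
    · exfalso
      obtain ⟨x, hx⟩ := hne
      rcases mem_union.mp (hU hx) with hxS | hxT
      · exact hsU (h1' ⟨x, mem_inter.mpr ⟨hx, hxS⟩⟩ hs)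
      · exact htU (h2' ⟨x, mem_inter.mpr ⟨hx, hxT⟩⟩ ht)

theorem cutConn_singleton (a : V) : CutConn adj ({a} : Finset V) := by
  refine ⟨singleton_nonempty a, fun U hU hne hne' => ?_⟩
  rcases subset_singleton_iff.mp hU with h | h
  · exact absurd h (nonempty_iff_ne_empty.mp hne)
  · exact absurd h hne'

theorem CutConn.insert {S : Finset V} (hS : CutConn adj S) (hsymm : ∀ a b, adj a b → adj b a)
    {s t : V} (hs : s ∈ S) (h : adj s t) : CutConn adj (insert t S) := by
  have := hS.union (cutConn_singleton t) hsymm hs (mem_singleton_self t) h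
  rwa [union_comm, ← insert_eq] at this

/-- A maximal connected subset of `X` containing `c`. -/
theorem exists_component (hsymm : ∀ a b, adj a b → adj b a) (X : Finset V) (c : V) (hc : c ∈ X) :
    ∃ C ⊆ X, c ∈ C ∧ CutConn adj C ∧ ∀ u ∈ C, ∀ v ∈ X, adj u v → v ∈ C := by
  classical
  let F := X.powerset.filter (fun C => c ∈ C ∧ CutConn adj C)
  have hF : F.Nonempty := ⟨{c}, by
    simp only [F, mem_filter, mem_powerset, singleton_subset_iff]
    exact ⟨hc, mem_singleton_self c, cutConn_singleton c⟩⟩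
  obtain ⟨C, hC, hmax⟩ := exists_max_image F Finset.card hF
  simp only [F, mem_filter, mem_powerset] at hC
  refine ⟨C, hC.1, hC.2.1, hC.2.2, ?_⟩
  intro u hu v hv huv
  by_contra hvC
  have h1 : insert v C ∈ F := by
    simp only [F, mem_filter, mem_powerset]
    refine ⟨insert_subset hv hC.1, mem_insert_of_mem hC.2.1, hC.2.2.insert hsymm hu huv⟩
  have h2 := hmax _ h1
  rw [card_insert_of_notMem hvC] at h2
  omega

/-- If `C` is a component of `B \ {b}` then `S \ C` is connected. -/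
theorem rest_conn {S A B C : Finset V} {b : V} (hsymm : ∀ a b, adj a b → adj b a)
    (hS : S = A ∪ B) (hd : Disjoint A B) (hB : CutConn adj B) (hb : b ∈ B)
    (hA : A = ∅ ∨ (CutConn adj A ∧ ∃ a ∈ A, adj a b)) (hCB : C ⊆ B.erase b)
    (hC : ∀ u ∈ C, ∀ v ∈ B.erase b, adj u v → v ∈ C) :
    CutConn adj (S \ C) := by
  have hbS : b ∈ S \ C := by
    rw [mem_sdiff, hS, mem_union]
    exact ⟨Or.inr hb, fun h => (mem_erase.mp (hCB h)).1 rfl⟩
  -- a nonempty subset `U` of `S \ C` without `b` has an edge leaving it inside `S \ C`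
  have key : ∀ U ⊆ S \ C, U.Nonempty → b ∉ U → ∃ a ∈ U, ∃ w ∈ (S \ C) \ U, adj a w := by
    intro U hU hne hbU
    by_cases hUA : (U ∩ A).Nonempty
    · rcases hA with hA | ⟨hA, a, ha, hab⟩
      · rw [hA] at hUA; simp at hUA
      by_cases hAU : A ⊆ U
      · exact ⟨a, hAU ha, b, mem_sdiff.mpr ⟨hbS, hbU⟩, hab⟩
      · obtain ⟨x, hx, y, hy, hxy⟩ := hA.2 (U ∩ A) inter_subset_right hUA
          (fun he => hAU (he ▸ inter_subset_left))
        rw [mem_inter] at hx
        rw [mem_sdiff, mem_inter] at hy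
        refine ⟨x, hx.1, y, ?_, hxy⟩
        rw [mem_sdiff, mem_sdiff, hS, mem_union]
        refine ⟨⟨Or.inl hy.1, fun hyC => ?_⟩, fun h => hy.2 ⟨h, hy.1⟩⟩
        have : y ∈ B := (mem_erase.mp (hCB hyC)).2
        exact (Finset.disjoint_left.mp hd) hy.1 this
    · have hUB : U ⊆ B := by
        intro x hx
        have h1 := hU hx
        rw [mem_sdiff, hS, mem_union] at h1
        rcases h1.1 with h | h
        · exact absurd ⟨x, mem_inter.mpr ⟨hx, h⟩⟩ hUA
        · exact h
      obtain ⟨x, hx, y, hy, hxy⟩ := hB.2 U hUB hne (fun he => hbU (he ▸ hb))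
      rw [mem_sdiff] at hy
      refine ⟨x, hx, y, ?_, hxy⟩
      rw [mem_sdiff, mem_sdiff, hS, mem_union]
      refine ⟨⟨Or.inr hy.1, fun hyC => ?_⟩, hy.2⟩
      have hxe : x ∈ B.erase b := mem_erase.mpr ⟨fun h => hbU (h ▸ hx), hUB hx⟩
      have := hC y hyC x hxe (hsymm _ _ hxy)
      exact (mem_sdiff.mp (hU hx)).2 this
  refine ⟨⟨b, hbS⟩, fun U hU hne hne' => ?_⟩
  by_cases hbU : b ∈ U
  · have hne2 : ((S \ C) \ U).Nonempty := by
      rw [nonempty_iff_ne_empty]
      intro h
      exact hne' (Subset.antisymm hU (sdiff_eq_empty_iff_subset.mp h))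
    obtain ⟨a, ha, w, hw, haw⟩ := key ((S \ C) \ U) sdiff_subset hne2
      (fun h => (mem_sdiff.mp h).2 hbU)
    refine ⟨w, ?_, a, ha, hsymm _ _ haw⟩
    by_contra hwU
    exact (mem_sdiff.mp hw).2 (mem_sdiff.mpr ⟨(mem_sdiff.mp hw).1, hwU⟩)
  · exact key U hU hne hbU

/-- Balanced splitting of a connected set in a graph of degree at most four. -/
theorem exists_split (hsymm : ∀ a b, adj a b → adj b a) (nb : V → Finset V)
    (hnb : ∀ a b, adj a b → b ∈ nb a) (hnb4 : ∀ a, (nb a).card ≤ 4)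
    {S : Finset V} (hS : CutConn adj S) (h2 : 2 ≤ S.card) :
    ∃ A B : Finset V, S = A ∪ B ∧ Disjoint A B ∧ CutConn adj A ∧ CutConn adj B ∧
      A.card ≤ B.card ∧ S.card ≤ 5 * A.card + 1 ∧ ∃ a ∈ A, ∃ b ∈ B, adj a b := by
  classical
  let F := S.powerset.filter (fun A => (A = ∅ ∨ CutConn adj A) ∧ CutConn adj (S \ A) ∧
    A.card ≤ (S \ A).card)
  have hF : F.Nonempty := ⟨∅, mem_filter.mpr ⟨mem_powerset.mpr (empty_subset _), Or.inl rfl,
    by simpa using hS, by simp⟩⟩
  obtain ⟨A, hA, hmax⟩ := exists_max_image F Finset.card hF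
  simp only [F, mem_filter, mem_powerset] at hA
  obtain ⟨hAS, hA1, hA2, hA3⟩ := hA
  set B := S \ A with hB
  have hcard : S.card = A.card + B.card := by
    rw [hB, add_comm]; exact (card_sdiff_add_card_eq_card hAS).symm
  have hSAB : S = A ∪ B := (union_sdiff_of_subset hAS).symm
  have hdis : Disjoint A B := disjoint_sdiff
  have hBS : B ⊆ S := sdiff_subset
  -- size claim
  have hsize : S.card ≤ 5 * A.card + 1 := by
    by_contra hlt
    push Not at hlt
    -- choose `b`
    obtain ⟨b, hb, hAb⟩ : ∃ b ∈ B, A = ∅ ∨ (CutConn adj A ∧ ∃ a ∈ A, adj a b) := by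
      rcases hA1 with h | h
      · obtain ⟨b, hb⟩ := hA2.1
        exact ⟨b, hb, Or.inl h⟩
      · obtain ⟨a, ha, b, hb, hab⟩ := hS.2 A hAS h.1 (by
          intro he
          obtain ⟨x, hx⟩ := hA2.1
          rw [hB, he] at hx
          simp at hx)
        exact ⟨b, hb, Or.inr ⟨h, a, ha, hab⟩⟩
    -- components of `B \ {b}` at the neighbours of `b`
    let N := (nb b).filter (fun c => c ∈ B.erase b)
    have hN4 : N.card ≤ 4 := (card_filter_le _ _).trans (hnb4 b)
    have hcomp : ∀ c ∈ N, ∃ C ⊆ B.erase b, c ∈ C ∧ CutConn adj C ∧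
        ∀ u ∈ C, ∀ v ∈ B.erase b, adj u v → v ∈ C := by
      intro c hc
      exact exists_component hsymm (B.erase b) c (mem_filter.mp hc).2
    choose! K hK1 hK2 hK3 hK4 using hcomp
    have hcover : B.erase b ⊆ N.biUnion K := by
      by_contra hcon
      have h1 : insert b (N.biUnion K) ⊆ B := by
        apply insert_subset hb
        intro x hx
        obtain ⟨c, hc, hxc⟩ := mem_biUnion.mp hx
        exact (mem_erase.mp (hK1 c hc hxc)).2
      have h2 : insert b (N.biUnion K) ≠ B := by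
        intro he
        apply hcon
        intro x hx
        have hx2 : x ∈ insert b (N.biUnion K) := by rw [he]; exact (mem_erase.mp hx).2
        rcases mem_insert.mp hx2 with h | h
        · exact absurd h (mem_erase.mp hx).1
        · exact h
      obtain ⟨x, hx, y, hy, hxy⟩ := hA2.2 _ h1 ⟨b, mem_insert_self _ _⟩ h2
      rw [mem_sdiff, mem_insert, not_or] at hy
      have hyB : y ∈ B.erase b := mem_erase.mpr ⟨hy.2.1, hy.1⟩
      rcases mem_insert.mp hx with h | h
      · subst h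
        have hyN : y ∈ N := mem_filter.mpr ⟨hnb _ _ hxy, hyB⟩
        exact hy.2.2 (mem_biUnion.mpr ⟨y, hyN, hK2 y hyN⟩)
      · obtain ⟨c, hc, hxc⟩ := mem_biUnion.mp h
        exact hy.2.2 (mem_biUnion.mpr ⟨c, hc, hK4 c hc x hxc y hyB hxy⟩)
    have hBcard : (B.erase b).card = B.card - 1 := card_erase_of_mem hb
    have hBpos : 1 ≤ B.card := card_pos.mpr ⟨b, hb⟩
    -- a large component
    obtain ⟨c, hc, hcbig⟩ : ∃ c ∈ N, A.card < (K c).card := by
      by_contra hcon
      push Not at hcon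
      have h1 : (N.biUnion K).card ≤ N.card * A.card := card_biUnion_le_card_mul _ _ _ hcon
      have h3 := card_le_card hcover
      have h4 : N.card * A.card ≤ 4 * A.card := Nat.mul_le_mul_right _ hN4
      omega
    have hrest := rest_conn hsymm hSAB hdis hA2 hb hAb (hK1 c hc) (hK4 c hc)
    have hKS : K c ⊆ S := (hK1 c hc).trans ((erase_subset _ _).trans hBS)
    have hAK : insert b A ⊆ S \ K c := by
      apply insert_subset
      · rw [mem_sdiff]
        exact ⟨hBS hb, fun h => (mem_erase.mp (hK1 c hc h)).1 rfl⟩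
      · intro x hx
        rw [mem_sdiff]
        exact ⟨hAS hx, fun h => (Finset.disjoint_left.mp hdis) hx
          (mem_erase.mp (hK1 c hc h)).2⟩
    have hbA : b ∉ A := fun h => (Finset.disjoint_left.mp hdis) h hb
    have hbig2 : A.card < (S \ K c).card := by
      have := card_le_card hAK
      rw [card_insert_of_notMem hbA] at this
      omega
    rcases le_total (K c).card (S \ K c).card with h | h
    · have := hmax (K c) (by
        simp only [F, mem_filter, mem_powerset]
        exact ⟨hKS, Or.inr (hK3 c hc), hrest, h⟩)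
      omega
    · have hsd : S \ (S \ K c) = K c := by
        rw [sdiff_sdiff_right_self]
        exact inf_eq_right.mpr hKS
      have := hmax (S \ K c) (by
        simp only [F, mem_filter, mem_powerset]
        refine ⟨sdiff_subset, Or.inr hrest, ?_, ?_⟩
        · rw [hsd]; exact hK3 c hc
        · rw [hsd]; exact h)
      omega
  have hApos : 1 ≤ A.card := by omega
  have hAne : A.Nonempty := card_pos.mp hApos
  have hAconn : CutConn adj A := by
    rcases hA1 with h | h
    · rw [h] at hApos; simp at hApos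
    · exact h
  refine ⟨A, B, hSAB, hdis, hAconn, hA2, hA3, hsize, ?_⟩
  obtain ⟨a, ha, b, hb, hab⟩ := hS.2 A hAS hAne (by
    intro he
    obtain ⟨x, hx⟩ := hA2.1
    rw [hB, he] at hx
    simp at hx)
  exact ⟨a, ha, b, hb, hab⟩

end General

end Pool.Agent.Y382.Poly
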