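import Pool.Agent.Y382.Poly.Count

/-!
# Growth of the number of fixed polyominoes
-/

namespace Pool.Agent.Y382.Poly

open Finset Filter Topology

open Classical in
/-- the lexicographically largest cell -/
noncomputable def mx (A : Finset (ℤ × ℤ)) : ℤ × ℤ :=
  if h : A.Nonempty then (exists_lexmax h).choose else 0

theorem mx_mem {A : Finset (ℤ × ℤ)} (h : A.Nonempty) : mx A ∈ A := by
  rw [mx, dif_pos h]
  exact (exists_lexmax h).choose_spec.1

theorem mx_max {A : Finset (ℤ × ℤ)} (h : A.Nonempty) :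
    ∀ p ∈ A, p.2 < (mx A).2 ∨ (p.2 = (mx A).2 ∧ p.1 ≤ (mx A).1) := by
  rw [mx, dif_pos h]
  exact (exists_lexmax h).choose_spec.2

/-- lexicographic concatenation -/
noncomputable def join (A B : Finset (ℤ × ℤ)) : Finset (ℤ × ℤ) := A ∪ shift (mx A + (1, 0)) B

theorem join_lt {A B : Finset (ℤ × ℤ)} (hA : A.Nonempty)
    (hB : ∀ p ∈ B, 0 < p.2 ∨ (p.2 = 0 ∧ 0 ≤ p.1)) :
    ∀ p ∈ A, ∀ q ∈ shift (mx A + (1, 0)) B, lt p q := by
  intro p hp q hq
  rw [mem_shift] at hq
  have h1 := hB _ hq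
  have h2 := mx_max hA p hp
  simp only [Prod.fst_sub, Prod.snd_sub, Prod.fst_add, Prod.snd_add] at h1
  unfold lt
  omega

theorem lt_irrefl' (p : ℤ × ℤ) : ¬ lt p p := by
  unfold lt
  omega

theorem lt_asymm' {p q : ℤ × ℤ} (h : lt p q) : ¬ lt q p := by
  unfold lt at *
  omega

theorem join_mem {m n : ℕ} {A B : Finset (ℤ × ℤ)} (hA : A ∈ Ts m) (hB : B ∈ Ts n) :
    join A B ∈ Ts (m + n) := by
  rw [mem_Ts] at hA hB
  obtain ⟨⟨a1, a2, a3⟩, a4⟩ := hA
  obtain ⟨⟨b1, b2, b3⟩, b4⟩ := hB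
  have hlt := join_lt a3.1 b4
  have hdis : Disjoint A (shift (mx A + (1, 0)) B) := by
    rw [Finset.disjoint_left]
    intro p hp hq
    exact lt_irrefl' p (hlt p hp p hq)
  have hmem : mx A + (1, 0) ∈ shift (mx A + (1, 0)) B := by
    rw [mem_shift, sub_self]; exact b2
  rw [mem_Ts]
  refine ⟨⟨?_, ?_, ?_⟩, ?_⟩
  · rw [join, card_union_of_disjoint hdis, shift_card, a1, b1]
  · exact mem_union_left _ a2
  · refine a3.union (b3.shift _) adj_symm (mx_mem a3.1) hmem ?_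
    simp [adj]
  · intro p hp
    rcases mem_union.mp hp with hp | hp
    · exact a4 p hp
    · have := hlt _ a2 p hp
      unfold lt at this
      simp only at this
      omega

theorem join_inj {A B A' B' : Finset (ℤ × ℤ)} (hA : A.Nonempty) (hA' : A'.Nonempty)
    (hB : ∀ p ∈ B, 0 < p.2 ∨ (p.2 = 0 ∧ 0 ≤ p.1)) (hB' : ∀ p ∈ B', 0 < p.2 ∨ (p.2 = 0 ∧ 0 ≤ p.1))
    (hc : A.card = A'.card) (h : join A B = join A' B') : A = A' ∧ B = B' := by
  have l1 := join_lt hA hB
  have l2 := join_lt hA' hB'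
  have hAA : A = A' := by
    by_contra hne
    have h1 : ¬ A ⊆ A' := fun hs => hne (eq_of_subset_of_card_le hs hc.ge)
    have h2 : ¬ A' ⊆ A := fun hs => hne (eq_of_subset_of_card_le hs hc.le).symm
    rw [not_subset] at h1 h2
    obtain ⟨x, hxA, hxA'⟩ := h1
    obtain ⟨y, hyA', hyA⟩ := h2
    have hx : x ∈ shift (mx A' + (1, 0)) B' := by
      have : x ∈ join A' B' := h ▸ mem_union_left _ hxA
      exact (mem_union.mp this).resolve_left hxA'
    have hy : y ∈ shift (mx A + (1, 0)) B := by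
      have : y ∈ join A B := h.symm ▸ mem_union_left _ hyA'
      exact (mem_union.mp this).resolve_left hyA
    exact lt_asymm' (l1 x hxA y hy) (l2 y hyA' x hx)
  subst hAA
  refine ⟨rfl, ?_⟩
  have hS : ∀ q, q ∈ shift (mx A + (1, 0)) B ↔ q ∈ shift (mx A + (1, 0)) B' := by
    intro q
    constructor
    · intro hq
      have : q ∈ join A B' := h ▸ mem_union_right _ hq
      exact (mem_union.mp this).resolve_left (fun hqA => lt_irrefl' q (l1 q hqA q hq))
    · intro hq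
      have : q ∈ join A B := h.symm ▸ mem_union_right _ hq
      exact (mem_union.mp this).resolve_left (fun hqA => lt_irrefl' q (l2 q hqA q hq))
  ext p
  have := hS (p + (mx A + (1, 0)))
  rw [mem_shift, mem_shift] at this
  simpa using this

theorem t_mul_le (m n : ℕ) : t m * t n ≤ t (m + n) := by
  rw [t, t, ← card_product]
  refine card_le_card_of_injOn (fun x => join x.1 x.2) ?_ ?_
  · intro x hx
    rw [coe_product] at hx
    exact join_mem hx.1 hx.2
  · intro x hx y hy hxy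
    rw [coe_product] at hx hy
    have hx1 := mem_Ts.mp hx.1
    have hx2 := mem_Ts.mp hx.2
    have hy1 := mem_Ts.mp hy.1
    have hy2 := mem_Ts.mp hy.2
    obtain ⟨h1, h2⟩ := join_inj hx1.1.2.2.1 hy1.1.2.2.1 hx2.2 hy2.2 (by rw [hx1.1.1, hy1.1.1]) hxy
    exact Prod.ext h1 h2

theorem t_zero : t 0 = 0 := by
  rw [t, card_eq_zero]
  ext S
  rw [mem_Ts]
  simp only [notMem_empty, iff_false, not_and]
  rintro ⟨h1, h2, _⟩
  rw [card_eq_zero] at h1
  subst h1
  simp at h2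

theorem t_one_pos : 1 ≤ t 1 := by
  rw [t, Nat.one_le_iff_ne_zero, ← Nat.pos_iff_ne_zero, card_pos]
  refine ⟨{(0, 0)}, ?_⟩
  rw [mem_Ts]
  refine ⟨⟨by simp, by simp, cutConn_singleton _⟩, ?_⟩
  intro p hp
  rw [mem_singleton] at hp
  subst hp
  simp

theorem t_pos {n : ℕ} (hn : 1 ≤ n) : 1 ≤ t n := by
  induction n, hn using Nat.le_induction with
  | base => exact t_one_pos
  | succ n hn ih =>
    refine le_trans ?_ (t_mul_le n 1)
    exact Nat.mul_le_mul ih t_one_pos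

/-- The bounding lemma. -/
theorem bound (K : ℕ) (hK : 1 ≤ K) (A : ℝ) (hA : 0 < A)
    (h : ∀ k, K ≤ k → k ≤ 5 * K → 576 * (k : ℝ) ^ 2 * c k ≤ A ^ k) :
    ∀ k, K ≤ k → 576 * (k : ℝ) ^ 2 * c k ≤ A ^ k := by
  intro N
  induction N using Nat.strong_induction_on with
  | _ N ih =>
    intro hKN
    by_cases hN5 : N ≤ 5 * K
    · exact h N hKN hN5
    push Not at hN5
    have hN6 : 6 ≤ N := by omega
    have hNr : (6 : ℝ) ≤ N := by exact_mod_cast hN6
    have hNpos : (0 : ℝ) < N := by linarith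
    have hsplit := c_split N (by omega)
    have hsplit' : (c N : ℝ) ≤ ∑ k ∈ (range N).filter (fun k => N ≤ 5 * k + 1 ∧ 2 * k ≤ N),
        (4 * N * (c k * c (N - k)) : ℝ) := by
      exact_mod_cast hsplit
    have hterm : ∀ k ∈ (range N).filter (fun k => N ≤ 5 * k + 1 ∧ 2 * k ≤ N),
        (4 * N * (c k * c (N - k)) : ℝ) ≤ A ^ N / (576 * (N : ℝ) ^ 3) := by
      intro k hk
      obtain ⟨hk1, hk2, hk3⟩ := mem_filter.mp hk
      rw [mem_range] at hk1
      have hkK : K ≤ k := by omega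
      have hk0 : 1 ≤ k := by omega
      have i1 := ih k hk1 hkK
      have i2 := ih (N - k) (by omega) (by omega)
      have hcast : ((N - k : ℕ) : ℝ) = (N : ℝ) - k := by
        rw [Nat.cast_sub (by omega)]
      rw [hcast] at i2
      have hkr : (N : ℝ) / 6 ≤ k := by
        have : (N : ℝ) ≤ 5 * k + 1 := by exact_mod_cast hk2
        linarith
      have hkr2 : (N : ℝ) / 2 ≤ (N : ℝ) - k := by
        have : 2 * (k : ℝ) ≤ N := by exact_mod_cast hk3
        linarith
      have hkpos : (0 : ℝ) < k := by linarith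
      have hkpos2 : (0 : ℝ) < (N : ℝ) - k := by linarith
      have hprod : (N : ℝ) ^ 2 / 12 ≤ k * ((N : ℝ) - k) := by
        calc (N : ℝ) ^ 2 / 12 = (N / 6) * (N / 2) := by ring
          _ ≤ k * ((N : ℝ) - k) := mul_le_mul hkr hkr2 (by positivity) (by positivity)
      have hprod2 : (N : ℝ) ^ 4 / 144 ≤ (k * ((N : ℝ) - k)) ^ 2 := by
        calc (N : ℝ) ^ 4 / 144 = ((N : ℝ) ^ 2 / 12) ^ 2 := by ring
          _ ≤ _ := pow_le_pow_left₀ (by positivity) hprod 2
      have hmul : (576 * (k : ℝ) ^ 2 * c k) * (576 * ((N : ℝ) - k) ^ 2 * c (N - k)) ≤ A ^ N := by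
        have := mul_le_mul i1 i2 (by positivity) (by positivity)
        rwa [← pow_add, Nat.add_sub_cancel' hk1.le] at this
      have hcc : 0 ≤ (c k : ℝ) * c (N - k) := by positivity
      rw [le_div_iff₀ (by positivity)]
      have h5 : 576 ^ 2 * ((N : ℝ) ^ 4 / 144) * ((c k : ℝ) * c (N - k)) ≤ A ^ N := by
        calc 576 ^ 2 * ((N : ℝ) ^ 4 / 144) * ((c k : ℝ) * c (N - k))
            ≤ 576 ^ 2 * (k * ((N : ℝ) - k)) ^ 2 * ((c k : ℝ) * c (N - k)) := by
              apply mul_le_mul_of_nonneg_right _ hcc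
              linarith
          _ = (576 * (k : ℝ) ^ 2 * c k) * (576 * ((N : ℝ) - k) ^ 2 * c (N - k)) := by ring
          _ ≤ A ^ N := hmul
      calc 4 * (N : ℝ) * ((c k : ℝ) * c (N - k)) * (576 * (N : ℝ) ^ 3)
          = 576 ^ 2 * ((N : ℝ) ^ 4 / 144) * ((c k : ℝ) * c (N - k)) := by ring
        _ ≤ A ^ N := h5
    have hsum := Finset.sum_le_card_nsmul _ _ _ hterm
    have hcard : ((range N).filter (fun k => N ≤ 5 * k + 1 ∧ 2 * k ≤ N)).card ≤ N :=
      (card_filter_le _ _).trans (card_range N).le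
    have hcN : (c N : ℝ) ≤ N * (A ^ N / (576 * (N : ℝ) ^ 3)) := by
      refine hsplit'.trans (hsum.trans ?_)
      rw [nsmul_eq_mul]
      apply mul_le_mul_of_nonneg_right _ (by positivity)
      exact_mod_cast hcard
    calc 576 * (N : ℝ) ^ 2 * c N ≤ 576 * (N : ℝ) ^ 2 * (N * (A ^ N / (576 * (N : ℝ) ^ 3))) :=
          mul_le_mul_of_nonneg_left hcN (by positivity)
      _ = A ^ N := by field_simp

theorem t_le_pow (K : ℕ) (hK : 1 ≤ K) (A : ℝ) (hA : 0 < A)
    (h : ∀ k, K ≤ k → k ≤ 5 * K → 576 * (k : ℝ) ^ 3 * t k ≤ A ^ k) :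
    ∀ k, K ≤ k → (t k : ℝ) ≤ A ^ k := by
  intro k hk
  have h1 := bound K hK A hA (fun k hk hk' => by
    refine le_trans ?_ (h k hk hk')
    have : (c k : ℝ) ≤ k * t k := by exact_mod_cast c_le k
    calc 576 * (k : ℝ) ^ 2 * c k ≤ 576 * (k : ℝ) ^ 2 * (k * t k) :=
          mul_le_mul_of_nonneg_left this (by positivity)
      _ = 576 * (k : ℝ) ^ 3 * t k := by ring) k hk
  have h2 : (t k : ℝ) ≤ c k := by exact_mod_cast t_le_c k
  have h3 : (1 : ℝ) ≤ (k : ℝ) ^ 2 := by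
    have : (1 : ℝ) ≤ k := by exact_mod_cast (hK.trans hk)
    nlinarith
  have h4 : (0 : ℝ) ≤ c k := by positivity
  nlinarith

/-- `t` grows at most exponentially. -/
theorem exists_exp_bound : ∃ A : ℝ, 1 ≤ A ∧ ∀ k, 1 ≤ k → (t k : ℝ) ≤ A ^ k := by
  let A : ℝ := ∑ k ∈ range 6, 576 * (k : ℝ) ^ 3 * t k + 1
  have hA1 : 1 ≤ A := by
    have : 0 ≤ ∑ k ∈ range 6, 576 * (k : ℝ) ^ 3 * t k := by positivity
    simp only [A]; linarith
  refine ⟨A, hA1, fun k hk => t_le_pow 1 le_rfl A (by linarith) ?_ k hk⟩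
  intro j hj hj5
  have h1 : 576 * (j : ℝ) ^ 3 * t j ≤ A := by
    have := Finset.single_le_sum (f := fun k : ℕ => 576 * (k : ℝ) ^ 3 * t k)
      (fun i _ => by positivity) (mem_range.mpr (by omega : j < 6))
    simp only [A]
    linarith
  exact h1.trans (le_self_pow₀ hA1 (by omega))

/-- minus the logarithm of `t n` -/
noncomputable def u (n : ℕ) : ℝ := -Real.log (t n)

theorem u_subadditive : Subadditive u := by
  intro m n
  rcases Nat.eq_zero_or_pos m with rfl | hm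
  · simp [u, t_zero]
  rcases Nat.eq_zero_or_pos n with rfl | hn
  · simp [u, t_zero]
  have h1 : (0 : ℝ) < t m := by exact_mod_cast t_pos hm
  have h2 : (0 : ℝ) < t n := by exact_mod_cast t_pos hn
  have h3 : ((t m : ℝ) * t n) ≤ t (m + n) := by exact_mod_cast t_mul_le m n
  have h4 := Real.log_le_log (by positivity) h3
  rw [Real.log_mul h1.ne' h2.ne'] at h4
  simp only [u]
  linarith

theorem u_bdd : BddBelow (Set.range fun n : ℕ => u n / n) := by
  obtain ⟨A, hA1, hA⟩ := exists_exp_bound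
  refine ⟨-Real.log A, ?_⟩
  rintro _ ⟨n, rfl⟩
  rcases Nat.eq_zero_or_pos n with rfl | hn
  · simp only [Nat.cast_zero, div_zero]
    have := Real.log_nonneg hA1
    linarith
  · have hn' : (0 : ℝ) < n := by exact_mod_cast hn
    have h1 : (0 : ℝ) < t n := by exact_mod_cast t_pos hn
    have h2 := Real.log_le_log h1 (hA n hn)
    rw [Real.log_pow] at h2
    simp only [u]
    rw [le_div_iff₀ hn']
    linarith

/-- Klarner's constant. -/
noncomputable def lam : ℝ := Real.exp (-u_subadditive.lim)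

theorem lam_pos : 0 < lam := Real.exp_pos _

theorem t_rpow (n : ℕ) (hn : 1 ≤ n) : (t n : ℝ) ^ (1 / (n : ℝ)) = Real.exp (-(u n / n)) := by
  have h1 : (0 : ℝ) < t n := by exact_mod_cast t_pos hn
  rw [Real.rpow_def_of_pos h1, u]
  congr 1
  ring

/-- `t(n)^(1/n) → λ`. -/
theorem tendsto_lam : Tendsto (fun n : ℕ => (t n : ℝ) ^ (1 / (n : ℝ))) atTop (𝓝 lam) := by
  have h1 : Tendsto (fun n : ℕ => Real.exp (-(u n / n))) atTop (𝓝 lam) :=
    (Real.continuous_exp.tendsto _).comp (u_subadditive.tendsto_lim u_bdd).neg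
  refine h1.congr' ?_
  filter_upwards [eventually_ge_atTop 1] with n hn
  exact (t_rpow n hn).symm

/-- `t(n) ≤ λ^n`. -/
theorem t_le_lam_pow (n : ℕ) (hn : 1 ≤ n) : (t n : ℝ) ≤ lam ^ n := by
  have h := u_subadditive.lim_le_div u_bdd (n := n) (by omega)
  have hn' : (0 : ℝ) < n := by exact_mod_cast hn
  rw [le_div_iff₀ hn'] at h
  have h1 : (0 : ℝ) < t n := by exact_mod_cast t_pos hn
  rw [lam, ← Real.exp_nat_mul]
  calc (t n : ℝ) = Real.exp (Real.log (t n)) := (Real.exp_log h1).symm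
    _ ≤ Real.exp (n * -u_subadditive.lim) := by
        apply Real.exp_le_exp.mpr
        simp only [u] at h
        linarith

/-- `λ ≤ A` if `576 k³ t(k) ≤ A^k` for `K ≤ k ≤ 5K`. -/
theorem lam_le (K : ℕ) (hK : 1 ≤ K) (A : ℝ) (hA : 0 < A)
    (h : ∀ k, K ≤ k → k ≤ 5 * K → 576 * (k : ℝ) ^ 3 * t k ≤ A ^ k) : lam ≤ A := by
  have h1 := t_le_pow K hK A hA h
  refine le_of_tendsto tendsto_lam ?_
  filter_upwards [eventually_ge_atTop K] with n hn
  have hn0 : n ≠ 0 := by omega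
  calc (t n : ℝ) ^ (1 / (n : ℝ)) ≤ (A ^ n) ^ (1 / (n : ℝ)) :=
        Real.rpow_le_rpow (by positivity) (h1 n hn) (by positivity)
    _ = A := by
        rw [one_div, Real.pow_rpow_inv_natCast hA.le hn0]

theorem one_le_lam : 1 ≤ lam := by
  have h := t_le_lam_pow 1 le_rfl
  rw [pow_one] at h
  have : (1 : ℝ) ≤ t 1 := by exact_mod_cast t_one_pos
  linarith

end Pool.Agent.Y382.Poly
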